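import Pool.Agent.Helper91.IP.Defs

/-!
# Project IP, piece C5: the dimension of the space of functions of level at most `j`
-/

namespace Pool.Agent.Helper41.IP

open Finset Equiv Matrix Pool.Agent.Helper91.IP

variable {V : Type} [Fintype V] [DecidableEq V]

/-- pairs of a set of `j` labels and positions for them -/
private abbrev Idx (V : Type) [Fintype V] [DecidableEq V] (j : ℕ) : Type :=
  Σ S : {S : Finset V // S.card = j}, (↥S.1 → V)

/-- the sum over all sets of `j` labels of a function of their positions -/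
private def evS (V : Type) [Fintype V] [DecidableEq V] (j : ℕ) :
    (Idx V j → ℝ) →ₗ[ℝ] (Perm V → ℝ) where
  toFun h := fun s => ∑ S : {S : Finset V // S.card = j}, h ⟨S, fun i => s i⟩
  map_add' h h' := by
    funext s
    simp only [Pi.add_apply, sum_add_distrib]
  map_smul' c h := by
    funext s
    simp only [Pi.smul_apply, smul_eq_mul, mul_sum, RingHom.id_apply]

open Classical in
private theorem Fs_le_range (j : ℕ) (hj : j ≤ Fintype.card V) (S : Finset V) (hS : S.card ≤ j) :
    Fs S ≤ LinearMap.range (evS V j) := by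
  intro f hf
  obtain ⟨S', hSS', -, hS'⟩ := Finset.exists_subsuperset_card_eq (Finset.subset_univ S) hS
    (by rw [Finset.card_univ]; exact hj)
  refine ⟨fun e => if h : e.1.1 = S' ∧ ∃ s : Perm V, ∀ i : ↥e.1.1, s i = e.2 i then
    f h.2.choose else 0, ?_⟩
  funext s
  change (∑ T : {S : Finset V // S.card = j}, _) = f s
  rw [Finset.sum_eq_single (⟨S', hS'⟩ : {S : Finset V // S.card = j})]
  · have h0 : S' = S' ∧ ∃ s' : Perm V, ∀ i : ↥S', s' i = s i :=
      ⟨rfl, s, fun i => rfl⟩
    refine (dif_pos h0).trans ?_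
    refine hf _ _ fun i hi => ?_
    exact h0.2.choose_spec ⟨i, hSS' hi⟩
  · intro T _ hT
    refine dif_neg ?_
    rintro ⟨h1, -⟩
    exact hT (Subtype.ext h1)
  · intro h
    exact absurd (Finset.mem_univ _) h

/-- IP-C5 -/
theorem finrank_Vl (j : ℕ) (hj : j ≤ Fintype.card V) :
    Module.finrank ℝ (Vl V j) ≤ (Fintype.card V).choose j * Fintype.card V ^ j := by
  have h1 : Vl V j ≤ LinearMap.range (evS V j) :=
    iSup_le fun S => Fs_le_range j hj S.1 S.2
  refine (Submodule.finrank_mono h1).trans ((LinearMap.finrank_range_le _).trans ?_)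
  rw [Module.finrank_fintype_fun_eq_card, Fintype.card_sigma]
  have h2 : ∀ S : {S : Finset V // S.card = j},
      Fintype.card (↥S.1 → V) = Fintype.card V ^ j := by
    intro S
    rw [Fintype.card_fun, Fintype.card_coe, S.2]
  rw [Finset.sum_congr rfl fun S _ => h2 S, Finset.sum_const, smul_eq_mul, Finset.card_univ,
    Fintype.card_finset_len]

end Pool.Agent.Helper41.IP
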